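import Pool.Agent.H10.T2.Targets1

/-!
# Alperin–McKay, reduction to almost simple groups: module TG (existence of triples)
-/

open scoped Classical ComplexConjugate

namespace AMt

open AMc AMe Pool.Agent.H77.EA.All

namespace TG

variable {Γ : Type} [Group Γ] {n : ℕ}

/-- the trace of `A : V → V` as a matrix trace -/
theorem tr_eq (A : (Fin n → ℂ) →ₗ[ℂ] (Fin n → ℂ)) :
    LinearMap.trace ℂ _ A = Matrix.trace (LinearMap.toMatrix' A) := by
  rw [LinearMap.trace_eq_matrix_trace ℂ (Pi.basisFun ℂ (Fin n)) A, LinearMap.toMatrix_eq_toMatrix']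

/-- Schur's lemma -/
theorem schur {G : Type} [Group G] (ρ : Representation ℂ G (Fin n → ℂ)) (hρ : ρ.IsIrreducible)
    (B : (Fin n → ℂ) →ₗ[ℂ] (Fin n → ℂ)) (hB : ∀ g v, B (ρ g v) = ρ g (B v)) :
    ∃ s : ℂ, ∀ v, B v = s • v := by
  have := hρ
  obtain ⟨s, hs⟩ := (Representation.IsIrreducible.algebraMap_intertwiningMap_bijective_of_isAlgClosed
    (ρ := ρ)).2 (B.intertwiningMap_of_isIntertwiningMap ρ ρ hB)
  refine ⟨s, fun v => ?_⟩
  exact (congrArg (fun f : Representation.IntertwiningMap ρ ρ => f.toLinearMap v) hs).symm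

/-- averaging -/
theorem avg {G : Type} [Group G] [Fintype G] (ρ : Representation ℂ G (Fin n → ℂ))
    (hρ : ρ.IsIrreducible) (hn : (n : ℂ) ≠ 0) (X : (Fin n → ℂ) →ₗ[ℂ] (Fin n → ℂ)) :
    ∑ g : G, ρ g * X * ρ g⁻¹ =
      ((Nat.card G : ℂ) / n * LinearMap.trace ℂ _ X) • (1 : Module.End ℂ (Fin n → ℂ)) := by
  set T : Module.End ℂ (Fin n → ℂ) := ∑ g : G, ρ g * X * ρ g⁻¹ with hT
  have h1 : ∀ h : G, T * ρ h = ρ h * T := by
    intro h
    rw [hT, Finset.sum_mul, Finset.mul_sum]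
    refine Fintype.sum_equiv (Equiv.mulLeft h⁻¹) _ _ fun g => ?_
    simp only [Equiv.coe_mulLeft]
    have e1 : ρ h * ρ (h⁻¹ * g) = ρ g := by rw [← map_mul, mul_inv_cancel_left]
    have e2 : ρ g⁻¹ * ρ h = ρ (h⁻¹ * g)⁻¹ := by
      rw [← map_mul]
      congr 1
      group
    rw [mul_assoc (ρ g * X), e2, ← mul_assoc (ρ h), ← mul_assoc (ρ h), e1]
  obtain ⟨s, hs⟩ := schur ρ hρ T (fun g v => by
    have := congrArg (fun f : Module.End ℂ (Fin n → ℂ) => f v) (h1 g)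
    simpa using this)
  have h2 : T = s • (1 : Module.End ℂ (Fin n → ℂ)) := by
    refine LinearMap.ext fun v => ?_
    rw [hs v]
    rfl
  have h3 : LinearMap.trace ℂ _ T = s * n := by
    rw [h2, map_smul, LinearMap.trace_one]
    simp
  have h4 : LinearMap.trace ℂ _ T = (Nat.card G : ℂ) * LinearMap.trace ℂ _ X := by
    rw [hT, map_sum]
    rw [Finset.sum_congr rfl (g := fun _ => LinearMap.trace ℂ _ X)]
    · simp [Nat.card_eq_fintype_card]
    · intro g _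
      rw [LinearMap.trace_mul_comm, ← mul_assoc, ← map_mul]
      simp
  rw [h2]
  congr 1
  rw [h3] at h4
  field_simp
  exact h4

/-- the group `H` -/
def HH {K U : Subgroup Γ} (hK : NIn K U) (ρ : Representation ℂ K (Fin n → ℂ)) (c : ℕ) :
    Subgroup (Γ × ((Fin n → ℂ) ≃ₗ[ℂ] (Fin n → ℂ))) where
  carrier := {x | x.1 ∈ U ∧
    (∀ k k' : K, (k' : Γ) = x.1 * k * x.1⁻¹ → ∀ v, x.2 (ρ k v) = ρ k' (x.2 v)) ∧
    LinearMap.det (x.2 : (Fin n → ℂ) →ₗ[ℂ] (Fin n → ℂ)) ^ c = 1}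
  mul_mem' := by
    rintro x y ⟨hx, hx', hx''⟩ ⟨hy, hy', hy''⟩
    refine ⟨U.mul_mem hx hy, ?_, ?_⟩
    · intro k k' h v
      have h1 : y.1 * k * y.1⁻¹ ∈ K := hK.nor _ hy _ k.2
      show x.2 (y.2 (ρ k v)) = ρ k' (x.2 (y.2 v))
      rw [hy' k ⟨_, h1⟩ rfl v, hx' ⟨_, h1⟩ k' (by
        rw [h]
        simp [mul_assoc]) (y.2 v)]
    · have h1 : ((x * y).2 : (Fin n → ℂ) →ₗ[ℂ] (Fin n → ℂ)) =
        (x.2 : (Fin n → ℂ) →ₗ[ℂ] (Fin n → ℂ)) * (y.2 : (Fin n → ℂ) →ₗ[ℂ] (Fin n → ℂ)) := rfl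
      rw [h1, map_mul, mul_pow, hx'', hy'', one_mul]
  one_mem' := by
    refine ⟨U.one_mem, fun k k' h v => ?_, ?_⟩
    · have : k' = k := Subtype.ext (by simpa using h)
      subst this
      rfl
    · have h1 : ((1 : Γ × ((Fin n → ℂ) ≃ₗ[ℂ] (Fin n → ℂ))).2 : (Fin n → ℂ) →ₗ[ℂ] (Fin n → ℂ)) =
        LinearMap.id := rfl
      rw [h1, LinearMap.det_id, one_pow]
  inv_mem' := by
    rintro x ⟨hx, hx', hx''⟩
    refine ⟨U.inv_mem hx, ?_, ?_⟩
    · intro k k' h v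
      have h1 : (k : Γ) = x.1 * k' * x.1⁻¹ := by
        rw [h]
        simp [mul_assoc]
      have h2 := hx' k' k h1 (x.2.symm v)
      show x.2.symm (ρ k v) = ρ k' (x.2.symm v)
      apply x.2.injective
      rw [LinearEquiv.apply_symm_apply, h2, LinearEquiv.apply_symm_apply]
    · have h1 : ((x⁻¹).2 : (Fin n → ℂ) →ₗ[ℂ] (Fin n → ℂ)) * (x.2 : (Fin n → ℂ) →ₗ[ℂ] (Fin n → ℂ))
        = 1 := by
        refine LinearMap.ext fun v => ?_
        show x.2.symm (x.2 v) = v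
        exact x.2.symm_apply_apply v
      have h2 := congrArg LinearMap.det h1
      rw [map_mul, map_one] at h2
      have h3 := congrArg (fun z : ℂ => z ^ c) h2
      simpa only [mul_pow, hx'', mul_one, one_pow] using h3

/-- its representation -/
def rep {K U : Subgroup Γ} (hK : NIn K U) (ρ : Representation ℂ K (Fin n → ℂ)) (c : ℕ) :
    Representation ℂ (HH hK ρ c) (Fin n → ℂ) where
  toFun a := (a.1.2 : (Fin n → ℂ) →ₗ[ℂ] (Fin n → ℂ))
  map_one' := rfl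
  map_mul' _ _ := rfl

theorem ker_scalar {K U : Subgroup Γ} (hK : NIn K U) (ρ : Representation ℂ K (Fin n → ℂ))
    (hρ : ρ.IsIrreducible) (c : ℕ) (z : HH hK ρ c) (hz : z.1.1 = 1) :
    ∃ s : ℂ, s ^ (n * c) = 1 ∧ ∀ v, z.1.2 v = s • v := by
  obtain ⟨h1, h2, h3⟩ := z.2
  obtain ⟨s, hs⟩ := schur ρ hρ (z.1.2 : (Fin n → ℂ) →ₗ[ℂ] (Fin n → ℂ)) (fun k v =>
    h2 k k (by rw [hz]; simp) v)
  refine ⟨s, ?_, hs⟩
  have h4 : (z.1.2 : (Fin n → ℂ) →ₗ[ℂ] (Fin n → ℂ)) = s • LinearMap.id :=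
    LinearMap.ext fun v => hs v
  rw [h4, LinearMap.det_smul, LinearMap.det_id, mul_one] at h3
  simpa [pow_mul] using h3

theorem ext_ker {K U : Subgroup Γ} (hK : NIn K U) (ρ : Representation ℂ K (Fin n → ℂ))
    (c : ℕ) (z z' : HH hK ρ c) (hz : z.1.1 = z'.1.1) (h : ∀ v, z.1.2 v = z'.1.2 v) : z = z' :=
  Subtype.ext (Prod.ext hz (LinearEquiv.ext h))

theorem fin [Finite Γ] {K U : Subgroup Γ} (hK : NIn K U) (ρ : Representation ℂ K (Fin n → ℂ))
    (hρ : ρ.IsIrreducible) (c : ℕ) (hc : 0 < n * c) : Finite (HH hK ρ c) := by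
  have hS : {s : ℂ | s ^ (n * c) = 1}.Finite := by
    refine (Multiset.toFinset (Polynomial.nthRoots (n * c) (1 : ℂ))).finite_toSet.subset ?_
    intro s hs
    simpa [Polynomial.mem_nthRoots hc] using hs
  have : Finite {s : ℂ | s ^ (n * c) = 1} := hS.to_subtype
  let g : Γ → HH hK ρ c := fun u => if h : ∃ a : HH hK ρ c, a.1.1 = u then h.choose else 1
  have hg : ∀ a : HH hK ρ c, (g a.1.1).1.1 = a.1.1 := by
    intro a
    have h : ∃ b : HH hK ρ c, b.1.1 = a.1.1 := ⟨a, rfl⟩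
    show (dite _ _ _ : HH hK ρ c).1.1 = _
    rw [dif_pos h]
    exact h.choose_spec
  have hk : ∀ a : HH hK ρ c, (a * (g a.1.1)⁻¹).1.1 = 1 := by
    intro a
    show a.1.1 * (g a.1.1).1.1⁻¹ = 1
    rw [hg, mul_inv_cancel]
  choose s hs1 hs2 using fun a : HH hK ρ c => ker_scalar hK ρ hρ c _ (hk a)
  refine Finite.of_injective (fun a : HH hK ρ c =>
    ((a.1.1, ⟨s a, hs1 a⟩) : Γ × {s : ℂ | s ^ (n * c) = 1})) ?_
  intro a b hab'
  have hab : ((a.1.1, ⟨s a, hs1 a⟩) : Γ × {s : ℂ | s ^ (n * c) = 1}) =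
    (b.1.1, ⟨s b, hs1 b⟩) := hab'
  have h1 : a.1.1 = b.1.1 := (Prod.ext_iff.1 hab).1
  have h2 : s a = s b := congrArg Subtype.val (Prod.ext_iff.1 hab).2
  have h3 : a * (g a.1.1)⁻¹ = b * (g b.1.1)⁻¹ := by
    refine ext_ker hK ρ c _ _ ((hk a).trans (hk b).symm) fun v => ?_
    rw [hs2 a, hs2 b, h2]
  rw [h1] at h3
  exact mul_right_cancel h3

/-- the invertible map `ρ k` -/
def eqv {K : Subgroup Γ} (ρ : Representation ℂ K (Fin n → ℂ)) (k : K) :
    (Fin n → ℂ) ≃ₗ[ℂ] (Fin n → ℂ) :=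
  LinearEquiv.ofLinearMap (ρ k) (ρ k⁻¹)
    (by
      have := (map_mul ρ k k⁻¹).symm
      rw [mul_inv_cancel, map_one] at this
      exact this)
    (by
      have := (map_mul ρ k⁻¹ k).symm
      rw [inv_mul_cancel, map_one] at this
      exact this)

/-- the embedding of `K` -/
def ii {K U : Subgroup Γ} (hK : NIn K U) (ρ : Representation ℂ K (Fin n → ℂ)) :
    K →* HH hK ρ (Nat.card K) where
  toFun k := ⟨((k : Γ), eqv ρ k), by
    refine ⟨hK.le k.2, fun a a' h v => ?_, ?_⟩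
    · show ρ k (ρ a v) = ρ a' (ρ k v)
      have h1 : k * a = a' * k := Subtype.ext (by
        rw [Subgroup.coe_mul, Subgroup.coe_mul, h]
        simp)
      have h2 := congrArg (fun x => ρ x v) h1
      simp only [map_mul] at h2
      exact h2
    · have h1 : ((eqv ρ k : (Fin n → ℂ) ≃ₗ[ℂ] (Fin n → ℂ)) : (Fin n → ℂ) →ₗ[ℂ] (Fin n → ℂ)) =
        ρ k := rfl
      show LinearMap.det ((eqv ρ k : (Fin n → ℂ) ≃ₗ[ℂ] (Fin n → ℂ)) :
        (Fin n → ℂ) →ₗ[ℂ] (Fin n → ℂ)) ^ _ = 1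
      rw [h1, ← map_pow, ← map_pow, pow_card_eq_one', map_one, map_one]⟩
  map_one' := Subtype.ext (Prod.ext rfl (LinearEquiv.ext fun v => by
    show ρ 1 v = v
    rw [map_one]
    rfl))
  map_mul' k k' := Subtype.ext (Prod.ext rfl (LinearEquiv.ext fun v => by
    show ρ (k * k') v = ρ k (ρ k' v)
    rw [map_mul]
    rfl))

theorem rep_irr {K U : Subgroup Γ} (hK : NIn K U) (ρ : Representation ℂ K (Fin n → ℂ))
    (hρ : ρ.IsIrreducible) : (rep hK ρ (Nat.card K)).IsIrreducible := by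
  have := hρ
  have hs : ∀ W : Subrepresentation (rep hK ρ (Nat.card K)),
      ∃ W' : Subrepresentation ρ, W'.toSubmodule = W.toSubmodule :=
    fun W => ⟨⟨W.toSubmodule, fun k v hv => W.apply_mem_toSubmodule (ii hK ρ k) hv⟩, rfl⟩
  refine @IsSimpleOrder.mk _ _ _ ⟨⟨⊥, ⊤, fun h => ?_⟩⟩ fun W => ?_
  · have h1 : (⊥ : Subrepresentation ρ) ≠ ⊤ := bot_ne_top
    apply h1
    have h2 := congrArg Subrepresentation.toSubmodule h
    exact Subrepresentation.toSubmodule_injective h2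
  · obtain ⟨W', hW'⟩ := hs W
    rcases eq_bot_or_eq_top W' with h | h
    · left
      apply Subrepresentation.toSubmodule_injective
      rw [← hW', h]
      rfl
    · right
      apply Subrepresentation.toSubmodule_injective
      rw [← hW', h]
      rfl

/-- every element of `U` is covered -/
theorem cov [Fintype Γ] {K U : Subgroup Γ} (hK : NIn K U) (ρ : Representation ℂ K (Fin n → ℂ))
    (hρ : ρ.IsIrreducible) (hn : 0 < n) (u : Γ) (hu : u ∈ U)
    (hinv : ∀ k k' : K, (k' : Γ) = u * k * u⁻¹ → ρ.character k' = ρ.character k) :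
    ∃ a : HH hK ρ (Nat.card K), a.1.1 = u := by
  have := hρ
  have hU : ∀ k : K, u * k * u⁻¹ ∈ K := fun k => hK.nor _ hu _ k.2
  let φ : K →* K :=
    { toFun := fun k => ⟨u * k * u⁻¹, hU k⟩
      map_one' := Subtype.ext (by simp)
      map_mul' := fun a b => Subtype.ext (by simp [mul_assoc]) }
  let σ : Representation ℂ K (Fin n → ℂ) := ρ.comp φ
  have hσ : ∀ k, σ.character k = ρ.character k := fun k => hinv k (φ k) rfl
  have hK0 : (Nat.card K : ℂ) ≠ 0 := Nat.cast_ne_zero.2 Nat.card_pos.ne'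
  have : Invertible (Nat.card K : ℂ) := invertibleOfNonzero hK0
  have h1 := Representation.card_inv_mul_sum_char_mul_char_eq_finrank ρ σ
  have h2 := Representation.card_inv_mul_sum_char_mul_char_eq_finrank ρ ρ
  simp only [hσ] at h1
  rw [h2, Representation.IsIrreducible.finrank_intertwiningMap_self] at h1
  have h3 : Module.finrank ℂ (Representation.IntertwiningMap ρ σ) = 1 := by exact_mod_cast h1.symm
  obtain ⟨f, hf⟩ : ∃ f : Representation.IntertwiningMap ρ σ, f ≠ 0 := by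
    by_contra hcon
    push Not at hcon
    have : Subsingleton (Representation.IntertwiningMap ρ σ) :=
      ⟨fun a b => (hcon a).trans (hcon b).symm⟩
    rw [Module.finrank_zero_of_subsingleton] at h3
    exact absurd h3 (by norm_num)
  have hinj : Function.Injective f :=
    (Representation.IsIrreducible.injective_or_eq_zero f).resolve_right hf
  let A : (Fin n → ℂ) ≃ₗ[ℂ] (Fin n → ℂ) := LinearEquiv.ofInjectiveEndo f.toLinearMap hinj
  have hA : ∀ v, A v = f.toLinearMap v := fun v => rfl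
  have hAi : ∀ k v, A (ρ k v) = ρ (φ k) (A v) := by
    intro k v
    have := congrArg (fun g : (Fin n → ℂ) →ₗ[ℂ] (Fin n → ℂ) => g v) (f.isIntertwining' k)
    exact this
  obtain ⟨d, hd⟩ : ∃ d : ℂ, d = LinearMap.det (A : (Fin n → ℂ) →ₗ[ℂ] (Fin n → ℂ)) := ⟨_, rfl⟩
  have hd0 : d ≠ 0 := by
    rw [hd]
    exact (LinearEquiv.isUnit_det' A).ne_zero
  obtain ⟨s, hs⟩ := IsAlgClosed.exists_pow_nat_eq ((d ^ Nat.card K)⁻¹)
    (Nat.mul_pos hn (Nat.card_pos (α := K)))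
  have hs0 : s ≠ 0 := by
    rintro rfl
    rw [zero_pow (Nat.mul_pos hn (Nat.card_pos (α := K))).ne'] at hs
    exact (inv_ne_zero (pow_ne_zero _ hd0)) hs.symm
  refine ⟨⟨(u, (LinearEquiv.smulOfNeZero ℂ (Fin n → ℂ) s hs0) * A), hu, ?_, ?_⟩, rfl⟩
  · intro k k' h v
    have h4 : k' = φ k := Subtype.ext h
    subst h4
    show s • A (ρ k v) = ρ (φ k) (s • A v)
    rw [hAi, map_smul]
  · have h4 : (((LinearEquiv.smulOfNeZero ℂ (Fin n → ℂ) s hs0) * A :
      (Fin n → ℂ) ≃ₗ[ℂ] (Fin n → ℂ)) : (Fin n → ℂ) →ₗ[ℂ] (Fin n → ℂ)) =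
      s • (A : (Fin n → ℂ) →ₗ[ℂ] (Fin n → ℂ)) := LinearMap.ext fun v => rfl
    show LinearMap.det (((LinearEquiv.smulOfNeZero ℂ (Fin n → ℂ) s hs0) * A :
      (Fin n → ℂ) ≃ₗ[ℂ] (Fin n → ℂ)) : (Fin n → ℂ) →ₗ[ℂ] (Fin n → ℂ)) ^ _ = 1
    rw [h4, LinearMap.det_smul, ← hd, Module.finrank_fin_fun, mul_pow, ← pow_mul, hs]
    exact inv_mul_cancel₀ (pow_ne_zero _ hd0)

/-- the Schur relation for operators -/
theorem sch {G : Type} [Group G] [Fintype G] (ρ : Representation ℂ G (Fin n → ℂ))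
    (hρ : ρ.IsIrreducible) (hn : (n : ℂ) ≠ 0) (A B : (Fin n → ℂ) →ₗ[ℂ] (Fin n → ℂ)) :
    ∑ g : G, LinearMap.trace ℂ _ (A * ρ g) * LinearMap.trace ℂ _ (ρ g⁻¹ * B) =
      (Nat.card G : ℂ) / n * LinearMap.trace ℂ _ (A * B) := by
  have h0 : ∀ i j l m : Fin n, ∑ g : G, LinearMap.toMatrix' (ρ g) j i *
      LinearMap.toMatrix' (ρ g⁻¹) l m = if i = l ∧ j = m then (Nat.card G : ℂ) / n else 0 := by
    intro i j l m
    have h1 := avg ρ hρ hn (Matrix.toLin' (Matrix.single i l (1 : ℂ)))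
    have h2 := congrArg (fun T : Module.End ℂ (Fin n → ℂ) => LinearMap.toMatrix' T j m) h1
    simp only [map_sum, Matrix.sum_apply] at h2
    rw [Finset.sum_congr rfl (g := fun g : G => LinearMap.toMatrix' (ρ g) j i *
      LinearMap.toMatrix' (ρ g⁻¹) l m)] at h2
    · rw [h2, tr_eq, LinearMap.toMatrix'_toLin', map_smul, LinearMap.toMatrix'_one,
        Matrix.smul_apply, Matrix.one_apply]
      by_cases h3 : i = l
      · subst h3
        rw [Matrix.trace_single_eq_same]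
        by_cases h4 : j = m <;> simp [h4]
      · rw [Matrix.trace_single_eq_of_ne _ _ _ h3]
        simp [h3]
    · intro g _
      rw [LinearMap.toMatrix'_mul, LinearMap.toMatrix'_mul, LinearMap.toMatrix'_toLin']
      rw [Matrix.mul_apply, Finset.sum_eq_single l]
      · rw [Matrix.mul_single_apply_same, mul_one]
      · intro b _ hb
        rw [Matrix.mul_single_apply_of_ne _ _ _ _ _ hb, zero_mul]
      · simp
  set a := LinearMap.toMatrix' A
  set b := LinearMap.toMatrix' B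
  have h1 : ∀ g : G, LinearMap.trace ℂ _ (A * ρ g) * LinearMap.trace ℂ _ (ρ g⁻¹ * B) =
      ∑ i, ∑ j, ∑ l, ∑ m, a i j * b m l *
        (LinearMap.toMatrix' (ρ g) j i * LinearMap.toMatrix' (ρ g⁻¹) l m) := by
    intro g
    rw [tr_eq, tr_eq, LinearMap.toMatrix'_mul, LinearMap.toMatrix'_mul, Matrix.trace, Matrix.trace,
      Finset.sum_mul]
    refine Finset.sum_congr rfl fun i _ => ?_
    rw [Matrix.diag_apply, Matrix.mul_apply, Finset.sum_mul]
    refine Finset.sum_congr rfl fun j _ => ?_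
    rw [Finset.mul_sum]
    refine Finset.sum_congr rfl fun l _ => ?_
    rw [Matrix.diag_apply, Matrix.mul_apply, Finset.mul_sum]
    refine Finset.sum_congr rfl fun m _ => ?_
    ring
  rw [Finset.sum_congr rfl fun g _ => h1 g, tr_eq, LinearMap.toMatrix'_mul]
  rw [Finset.sum_comm, Matrix.trace, Finset.mul_sum]
  refine Finset.sum_congr rfl fun i _ => ?_
  rw [Finset.sum_comm, Matrix.diag_apply, Matrix.mul_apply, Finset.mul_sum]
  refine Finset.sum_congr rfl fun j _ => ?_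
  rw [Finset.sum_comm, Finset.sum_eq_single i]
  · rw [Finset.sum_comm, Finset.sum_eq_single j]
    · rw [← Finset.mul_sum, h0]
      simp only [and_self, if_true]
      ring
    · intro m _ hm
      rw [← Finset.mul_sum, h0, if_neg (by
        rintro ⟨-, h⟩
        exact hm h.symm), mul_zero]
    · simp
  · intro l _ hl
    rw [Finset.sum_comm]
    refine Finset.sum_eq_zero fun m _ => ?_
    rw [← Finset.mul_sum, h0, if_neg (by
      rintro ⟨h, -⟩
      exact hl h.symm), mul_zero]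
  · simp

/-- the embedding of the centraliser -/
def jj {K U : Subgroup Γ} (hK : NIn K U) (ρ : Representation ℂ K (Fin n → ℂ)) (c : ℕ) :
    (U ⊓ Subgroup.centralizer (K : Set Γ) : Subgroup Γ) →* HH hK ρ c where
  toFun x := ⟨((x : Γ), 1), by
    refine ⟨x.2.1, fun k k' h v => ?_, ?_⟩
    · have h1 : (k : Γ) * x = x * k := Subgroup.mem_centralizer_iff.1 x.2.2 k k.2
      have h2 : k' = k := Subtype.ext (by
        rw [h, ← h1]
        simp)
      subst h2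
      rfl
    · have h1 : (((1 : (Fin n → ℂ) ≃ₗ[ℂ] (Fin n → ℂ))) : (Fin n → ℂ) →ₗ[ℂ] (Fin n → ℂ)) =
        LinearMap.id := rfl
      show LinearMap.det (((1 : (Fin n → ℂ) ≃ₗ[ℂ] (Fin n → ℂ))) :
        (Fin n → ℂ) →ₗ[ℂ] (Fin n → ℂ)) ^ c = 1
      rw [h1, LinearMap.det_id, one_pow]⟩
  map_one' := rfl
  map_mul' _ _ := rfl

end TG

open TG in
theorem tg : T_TG := by
  intro Γ _ _ K U hK θ hθ hinv
  obtain ⟨ψ, ⟨n, ρ, hρ, hch⟩, hext⟩ := id hθ
  have hθk : ∀ k : K, θ k = ρ.character k := by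
    intro k
    rw [← hext, hch]
    unfold ext0
    rw [dif_pos k.2]
  obtain ⟨-, -, ⟨d, hd, hd1⟩, -⟩ := fS1 Γ K θ hθ
  have hn1 : θ 1 = n := by
    have h1 := hθk 1
    rw [Subgroup.coe_one] at h1
    rw [h1, Representation.char_one, Module.finrank_fin_fun]
  have hn : 0 < n := by
    have h1 : (n : ℂ) = d := hn1.symm.trans hd1
    have h2 : n = d := by exact_mod_cast h1
    omega
  have hn0 : (n : ℂ) ≠ 0 := Nat.cast_ne_zero.2 hn.ne'
  have hfin : Finite (HH hK ρ (Nat.card K)) :=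
    fin hK ρ hρ _ (Nat.mul_pos hn (Nat.card_pos (α := K)))
  have hF : Fintype (HH hK ρ (Nat.card K)) := Fintype.ofFinite _
  let p : HH hK ρ (Nat.card K) →* Γ := (MonoidHom.fst _ _).comp (HH hK ρ (Nat.card K)).subtype
  refine ⟨HH hK ρ (Nat.card K), inferInstance, hF, p, ii hK ρ,
    fun a => LinearMap.trace ℂ _ (a.1.2 : (Fin n → ℂ) →ₗ[ℂ] (Fin n → ℂ)),
    ⟨hK, hθ, hinv, ?_, fun k => rfl, ?_, ?_, ?_, ?_, ?_, ?_⟩, jj hK ρ _, fun c => rfl, ?_, ?_⟩
  · ext u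
    constructor
    · rintro ⟨a, rfl⟩
      exact a.2.1
    · intro hu
      obtain ⟨a, ha⟩ := cov hK ρ hρ hn u hu (fun k k' h => by
        rw [← hθk, ← hθk, h]
        exact congrFun (hinv u hu) k)
      exact ⟨a, ha⟩
  · intro a k
    refine ⟨⟨a.1.1 * k * a.1.1⁻¹, hK.nor _ a.2.1 _ k.2⟩, ext_ker hK ρ _ _ _ rfl fun v => ?_⟩
    show ρ ⟨a.1.1 * k * a.1.1⁻¹, hK.nor _ a.2.1 _ k.2⟩ v = a.1.2 (ρ k (a.1.2.symm v))
    rw [a.2.2.1 k ⟨a.1.1 * k * a.1.1⁻¹, hK.nor _ a.2.1 _ k.2⟩ rfl, LinearEquiv.apply_symm_apply]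
  · intro z hz a
    obtain ⟨s, -, hs⟩ := ker_scalar hK ρ hρ _ z hz
    refine ext_ker hK ρ _ _ _ ?_ fun v => ?_
    · show z.1.1 * a.1.1 = a.1.1 * z.1.1
      have h1 : z.1.1 = 1 := hz
      rw [h1, one_mul, mul_one]
    · show z.1.2 (a.1.2 v) = a.1.2 (z.1.2 v)
      rw [hs, hs, map_smul]
  · exact ⟨n, rep hK ρ (Nat.card K), rep_irr hK ρ hρ, rfl⟩
  · intro k
    rw [hθk]
    rfl
  · intro z hz hz1
    obtain ⟨s, -, hs⟩ := ker_scalar hK ρ hρ _ z hz
    have h1 : (z.1.2 : (Fin n → ℂ) →ₗ[ℂ] (Fin n → ℂ)) = s • (LinearMap.id) :=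
      LinearMap.ext fun v => hs v
    have h2 : (((1 : HH hK ρ (Nat.card K)).1.2 : (Fin n → ℂ) ≃ₗ[ℂ] (Fin n → ℂ)) :
      (Fin n → ℂ) →ₗ[ℂ] (Fin n → ℂ)) = LinearMap.id := rfl
    have h3 : s * n = n := by
      have h4 := hz1
      simp only [h1, h2, map_smul, LinearMap.trace_id, Module.finrank_fin_fun, smul_eq_mul] at h4
      exact h4
    have h5 : s = 1 := mul_right_cancel₀ hn0 (h3.trans (one_mul _).symm)
    refine ext_ker hK ρ _ _ _ hz fun v => ?_
    rw [hs, h5, one_smul]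
    rfl
  · intro a b
    rw [hn1]
    exact sch ρ hρ hn0 (a.1.2 : (Fin n → ℂ) →ₗ[ℂ] (Fin n → ℂ))
      (b.1.2 : (Fin n → ℂ) →ₗ[ℂ] (Fin n → ℂ))
  · intro c a
    rfl
  · intro a c c' h
    refine ext_ker hK ρ _ _ _ h fun v => ?_
    show v = a.1.2 (a.1.2.symm v)
    rw [LinearEquiv.apply_symm_apply]

end AMt
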